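import Pool.Agent.NH24.DZ.F

/-!
# Relations between the double zeta values `ζ(p, k - p)` with `p / k` near a rational number

Let `0 < a < b`. If `t + γ < 1` in the case `a = 1` (for example in the middle `a / b = 1 / 2`), and if
`a min(t, γ) + max(t, γ) < 1` in general, then for all large `k` the values `ζ(p, k - p)` with
`|b p - a k| ≤ k ^ t` and `ζ(k)` satisfy no nontrivial linear relation with integer coefficients of absolute
value at most `2 ^ (k ^ γ)`. For every `H` there is `δ > 0` such that for all large `k` the values with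
`|b p - a k| ≤ δ k` and `ζ(k)` satisfy no nontrivial relation with integer coefficients of absolute value at
most `H`.

The starting file `MiddleArguments` has the case `a / b = 1 / 2`, `t < 1 / 3`, `γ + 2 t < 1`.
-/

set_option autoImplicit false

namespace Pool.Agent.Results.MP_9206b6_nt.NearRationalPositions

/-- the double zeta value `ζ(p, q)`, the sum of `m ^ (-p) n ^ (-q)` over `m > n ≥ 1` -/
noncomputable def doubleZeta (p q : ℕ) : ℝ :=
  ∑' m : ℕ, (∑ n ∈ Finset.Ico 1 (m + 1), 1 / (n : ℝ) ^ q) / ((m + 1 : ℕ) : ℝ) ^ p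

/-- the value `ζ(k)`, the sum of `m ^ (-k)` over `m ≥ 1` -/
noncomputable def zeta (k : ℕ) : ℝ := ∑' m : ℕ, 1 / ((m + 1 : ℕ) : ℝ) ^ k

/-- the first arguments `p ≤ k` with `|b p - a k| ≤ r` -/
noncomputable def near (a b k : ℕ) (r : ℝ) : Finset ℕ :=
  (Finset.range (k + 1)).filter fun p => |(b : ℝ) * p - a * k| ≤ r

/-- Let `1 ≤ a < b`.

(1) Let `t, γ > 0` with `a min(t, γ) + max(t, γ) < 1`, and `a min(t, γ) < b ε`. For all large `k`, all
integers `c_p`, `p ∈ near a b k (k ^ t)`, not all zero, and all integers `d`, of absolute value at most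
`2 ^ (k ^ γ)`: `|∑_p c_p ζ(p, k - p) + d ζ(k)| > k ^ (-ε k)`.

(2) For every real `H` there are `δ > 0` and `B > 1` such that for all large `k`, all integers `c_p`,
`p ∈ near a b k (δ k)`, not all zero, and all integers `d`, of absolute value at most `H`:
`|∑_p c_p ζ(p, k - p) + d ζ(k)| > B ^ (-k)`. -/
theorem result (a b : ℕ) (ha : 1 ≤ a) (hab : a < b) :
    (∀ t γ ε : ℝ, 0 < t → 0 < γ → a * min t γ + max t γ < 1 → a * min t γ < b * ε →
      ∃ k0 : ℕ, ∀ k : ℕ, k0 ≤ k → ∀ (c : ℕ → ℤ) (d : ℤ), (∃ p ∈ near a b k ((k : ℝ) ^ t), c p ≠ 0) →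
      (∀ p ∈ near a b k ((k : ℝ) ^ t), |(c p : ℝ)| ≤ (2 : ℝ) ^ ((k : ℝ) ^ γ)) →
      |(d : ℝ)| ≤ (2 : ℝ) ^ ((k : ℝ) ^ γ) →
      ((k : ℝ) ^ (ε * k))⁻¹ <
        |∑ p ∈ near a b k ((k : ℝ) ^ t), (c p : ℝ) * doubleZeta p (k - p) + (d : ℝ) * zeta k|) ∧
    (∀ H : ℝ, ∃ δ B : ℝ, 0 < δ ∧ 1 < B ∧ ∃ k0 : ℕ, ∀ k : ℕ, k0 ≤ k → ∀ (c : ℕ → ℤ) (d : ℤ),
      (∃ p ∈ near a b k (δ * k), c p ≠ 0) → (∀ p ∈ near a b k (δ * k), |(c p : ℝ)| ≤ H) →
      |(d : ℝ)| ≤ H →
      (B ^ k)⁻¹ <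
        |∑ p ∈ near a b k (δ * k), (c p : ℝ) * doubleZeta p (k - p) + (d : ℝ) * zeta k|) :=
  ⟨fun _ _ _ ht hγ h hε => Pool.Agent.NH24.DZ.powers ha hab ht hγ h hε,
    fun H => Pool.Agent.NH24.DZ.linear ha hab H⟩

end Pool.Agent.Results.MP_9206b6_nt.NearRationalPositions
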