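import Pool.Agent.NH24.EP.F

/-!
# Relations between double zeta values with first arguments in boundedly many short intervals

Let `H`, `s` be natural numbers. There is `c > 0` such that a relation
`∑_a e_a ζ(a, k - a) + d ζ(k) = 0` with integer coefficients `e_a` of absolute value at most `H` and large
smallest first argument `n` cannot have its first arguments in `s` intervals of length `c n`. The positions of
the intervals and the weight `k > n` are arbitrary. If `H` is smaller than the product of the primes up to `L`,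
then only the first arguments `a` with `2 ^ a ≤ (L + 1) ^ n` have to be covered by the intervals; only the
coefficients with `a ≤ (1 + δ) n` have to be bounded by `H`, the others by `(1 + c) ^ n`.

Proof: there is a prime `M ≤ L` such that `∑ e_a M ^ (-a)`, taken over the first interval, is not zero. If the
sum is smaller than `(L + 1) ^ (-n)`, then a finite number of terms `m ^ (-a) v ^ (-(k - a))` of pairs `(m, v)`
with `m ≤ M`, summed over the intervals, has an exponentially smaller sum; it is a sum of products of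
`S`-units and integers of subexponential size. By the subspace theorem it vanishes for infinitely many `n` in a
sequence of counterexamples, but it is not zero since the prime `M` occurs in the denominator only through the
pair `(M, 1)` and the first interval. If `k / n` is close to `1`, then the result follows from
`Pool.Agent.NH24.SQ.main`.
-/

set_option autoImplicit false

namespace Pool.Agent.Results.MP_9206b6_nt.ShortIntervals

/-- the double zeta value `ζ(p, q)`, the sum of `m ^ (-p) n ^ (-q)` over `m > n ≥ 1` -/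
noncomputable def doubleZeta (p q : ℕ) : ℝ :=
  ∑' m : ℕ, (∑ n ∈ Finset.Ico 1 (m + 1), 1 / (n : ℝ) ^ q) / ((m + 1 : ℕ) : ℝ) ^ p

/-- the value `ζ(k)`, the sum of `m ^ (-k)` over `m ≥ 1` -/
noncomputable def zeta (k : ℕ) : ℝ := ∑' m : ℕ, 1 / ((m + 1 : ℕ) : ℝ) ^ k

/-- Let `H ≥ 1`, `L` and `s` be natural numbers such that `H` is smaller than the product of the primes up to
`L`, and `δ > 0`. There are `c > 0`, `B > 1` and `n0` such that for all `k > n ≥ n0`, all finite sets `A` of
integers `a` with `n ≤ a < k` and `n ∈ A`, such that the elements `a` of `A` with `2 ^ a ≤ (L + 1) ^ n` lie in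
`s` intervals `[x_i, x_i + c n]`, all integers `e_a` with `e_n ≠ 0`, `|e_a| ≤ H` for `a ≤ (1 + δ) n`,
`|e_a| ≤ (1 + c) ^ n` for all `a` in `A`, and all integers `d`:
`|∑_{a ∈ A} e_a ζ(a, k - a) + d ζ(k)| > B ^ (-n)`. -/
theorem result (H L s : ℕ) (hH : 1 ≤ H) (hL : H < primorial L) (δ : ℝ) (hδ : 0 < δ) :
    ∃ c B : ℝ, 0 < c ∧ 1 < B ∧ ∃ n0 : ℕ,
    ∀ n k : ℕ, n0 ≤ n → n < k → ∀ (A : Finset ℕ) (x : Fin s → ℕ) (e : ℕ → ℤ) (d : ℤ), n ∈ A → e n ≠ 0 →
      (∀ a ∈ A, n ≤ a ∧ a < k) →
      (∀ a ∈ A, 2 ^ a ≤ (L + 1) ^ n → ∃ i, x i ≤ a ∧ (a : ℝ) ≤ x i + c * n) →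
      (∀ a ∈ A, (a : ℝ) ≤ (1 + δ) * n → |e a| ≤ H) → (∀ a ∈ A, |(e a : ℝ)| ≤ (1 + c) ^ n) →
      (B ^ n)⁻¹ < |∑ a ∈ A, (e a : ℝ) * doubleZeta a (k - a) + (d : ℝ) * zeta k| :=
  Pool.Agent.NH24.EP.main H L s hH hL δ hδ

end Pool.Agent.Results.MP_9206b6_nt.ShortIntervals
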