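import Pool.Agent.NH24.SQ.D

/-!
# Relations between the double zeta values `ζ(k - q, q)` with `q ≤ Q`

There is an absolute constant `C` such that the values `ζ(k - q, q)`, `1 ≤ q ≤ Q`, and `ζ(k)` satisfy no
nontrivial linear relation with integer coefficients of absolute value at most `2 ^ h`, `h ≥ 1`, if
`C Q h ≤ k`; a combination with such coefficients has absolute value at least `(C min(Q, √h)) ^ (-k)`.
Hence a relation with coefficients bounded by `2 ^ h` must contain a value `ζ(k - q, q)` with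
`q > k / (C h)`.

The starting file `SmallArguments` has the case `Q = k ^ θ`, `h = k ^ γ` with `θ < 1 / 5`, `γ < 1 - 2 θ`;
here it is `θ + γ < 1`, and for bounded coefficients the range is `q ≤ δ k`.

Proof: `∑_q c_q ζ(k - q, q) + d ζ(k) = ∑_m A(m) / m ^ k`, where `A(m)` is a rational number whose denominator
divides `lcm(1, ..., m) ^ Q`. If the sum is too small, then `A(m) = 0` for all `m ≤ M`, where `M` is of order
`min(Q, √h)`. For a prime `l` and `l < m < 2 l` the equation `A(m) = 0` gives a congruence modulo a power of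
`l` between the `c_q`, the coefficients of these congruences form a Vandermonde matrix whose determinant is
prime to `l`, and it follows that `l ^ min(l - 1, Q)` divides the last coefficient.
-/

set_option autoImplicit false

namespace Pool.Agent.Results.MP_9206b6_nt.UniformSmallSecondArguments

/-- the double zeta value `ζ(p, q)`, the sum of `m ^ (-p) n ^ (-q)` over `m > n ≥ 1` -/
noncomputable def doubleZeta (p q : ℕ) : ℝ :=
  ∑' m : ℕ, (∑ n ∈ Finset.Ico 1 (m + 1), 1 / (n : ℝ) ^ q) / ((m + 1 : ℕ) : ℝ) ^ p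

/-- the value `ζ(k)`, the sum of `m ^ (-k)` over `m ≥ 1` -/
noncomputable def zeta (k : ℕ) : ℝ := ∑' m : ℕ, 1 / ((m + 1 : ℕ) : ℝ) ^ k

/-- There is a constant `C ≥ 1` such that for all `k`, `Q` and all real `h ≥ 1` with `C Q h ≤ k`, all
integers `c_1, ..., c_Q`, not all zero, and all integers `d`, of absolute value at most `2 ^ h`,
`|∑_{q ≤ Q} c_q ζ(k - q, q) + d ζ(k)| ≥ (C min(Q, √h)) ^ (-k)`. -/
theorem result : ∃ C : ℝ, 1 ≤ C ∧ ∀ (k Q : ℕ) (h : ℝ), 1 ≤ h → C * Q * h ≤ k →
    ∀ (c : ℕ → ℤ) (d : ℤ), (∃ q ∈ Finset.Icc 1 Q, c q ≠ 0) →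
    (∀ q ∈ Finset.Icc 1 Q, |(c q : ℝ)| ≤ (2 : ℝ) ^ h) → |(d : ℝ)| ≤ (2 : ℝ) ^ h →
    1 / (C * min (Q : ℝ) √h) ^ k ≤
      |∑ q ∈ Finset.Icc 1 Q, (c q : ℝ) * doubleZeta (k - q) q + (d : ℝ) * zeta k| :=
  Pool.Agent.NH24.SQ.main

end Pool.Agent.Results.MP_9206b6_nt.UniformSmallSecondArguments
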